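import Pool.Agent.R697.LD.Bridge

/-!
# The Lie algebra of the group of local automorphisms is the space of local derivations

Let `V` be a finite-dimensional algebra over `𝕜 = ℝ` or `ℂ`. The definitions `IsDerivation`,
`IsAutomorphism`, `LocDer`, `LocAut` and `LieOf` are in `Pool/Agent/R697/LD/Bridge.lean`.

Proof. (1) Let `exp(tX)` be a local automorphism for all real `t` and let `x ∈ V`. The curve
`c(t) = exp(tX) x` lies in the orbit of `x` under `Aut(V)`. By Baire's theorem, for a dense set of
`t` it is given near `t` by automorphisms of bounded norm, so that `c(s) = h c(t)` with automorphisms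
`h` tending to `1` for a sequence of `s` tending to `t`; as the logarithm of an automorphism near `1`
is a derivation, `X c(t) = c'(t) ∈ Der(V) c(t)`. As the dimension of `Der(V) c(t)` is constant, this
holds for `t = 0` too. (2) Let `X` be a local derivation and `y ∈ V`. Choose a linear map
`σ : V → Der(V)` with `σ(w) y = w` for all `w ∈ Der(V) y`, and solve `h' = h σ(h⁻¹ X h y)`,
`h(0) = 1`. Then `h(t)` is an automorphism and `h(t) y = exp(tX) y` for small `t`; by
connectedness, `exp(tX) y` is in the orbit of `y` for all `t`.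
-/

set_option autoImplicit false

namespace Pool.Agent.Results.MP_9b03f8_al.LieAlgebraOfLocAut

open Pool.Agent.R697.LD NormedSpace

universe u v

/-- **The tangent algebra of the group of local automorphisms.** Let `𝕜` be `ℝ` or `ℂ` and let `V` be
a finite-dimensional algebra over `𝕜` with the bilinear product `m`. (The norm on `V` is auxiliary; it
is only used for the exponential function of `End(V)`.)

(1) For a linear operator `X` on `V`, all the operators `exp(tX)` with real `t` are local
automorphisms of `V` if and only if `X` is a local derivation of `V`. So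
`{X : exp(tX) ∈ LocAut(V) for all real t} = LocDer(V)`.

(2) `LocDer(V)` is closed under commutators. -/
theorem result (𝕜 : Type u) [RCLike 𝕜] (V : Type v) [NormedAddCommGroup V] [NormedSpace 𝕜 V]
    [FiniteDimensional 𝕜 V] (m : V →ₗ[𝕜] V →ₗ[𝕜] V) :
    LieOf (LocAut m) = LocDer m ∧
      ∀ X ∈ LocDer m, ∀ Y ∈ LocDer m, X * Y - Y * X ∈ LocDer m := by
  refine ⟨lieOf_locAut m, ?_⟩
  intro X hX Y hY
  let _ : NormedSpace ℝ V := NormedSpace.restrictScalars ℝ 𝕜 V
  have : IsScalarTower ℝ 𝕜 V := inferInstance
  have : FiniteDimensional ℝ V := FiniteDimensional.trans ℝ 𝕜 V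
  rw [mem_locDer_iff] at hX hY ⊢
  refine isLocal_bracket ?_ hX hY
  intro D hD F hF
  refine ⟨fun x y => ?_, fun x => ?_⟩
  · show F (D (mr m x y)) - D (F (mr m x y)) = mr m (F (D x) - D (F x)) y +
      mr m x (F (D y) - D (F y))
    rw [hD.1, hF.1, map_add, map_add, hF.1, hF.1, hD.1, hD.1]
    simp only [map_sub, sub_apply]
    abel
  · show F (D (Jr 𝕜 V x)) - D (F (Jr 𝕜 V x)) = Jr 𝕜 V (F (D x) - D (F x))
    rw [hD.2, hF.2, hF.2, hD.2, map_sub]

end Pool.Agent.Results.MP_9b03f8_al.LieAlgebraOfLocAut
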